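import Pool.Agent.X225.Cd.Main

/-!
# The cubic-dimension spectral sequences degenerate at a page depending only on the scale

`E δ F i p k` is the term `E^i_{p,k-p}` of the spectral sequence of a filtered complex and `d` is its
differential.  For the Vietoris-Rips complex of `{0, 1} ^ n` at scale `r`, filtered by the cubic
dimension, we show that `d` vanishes for all `i > r ^ 2 * r! * (4 r + 4) ^ r`, all `n`, `p` and `k`.
-/

namespace Pool.Agent.Results.MP_e813cc_gt.UniformDegeneration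

open X225.Cd

section General

variable {𝕜 M : Type*} [Field 𝕜] [AddCommGroup M] [Module 𝕜 M] (δ : M →ₗ[𝕜] M)
  (F : ℤ → ℤ → Submodule 𝕜 M)

/-- `Z^i_p` in degree `k`: elements of `F_p` of degree `k` whose image lies in `F_{p-i}`. -/
def Z (i p k : ℤ) : Submodule 𝕜 M := F p k ⊓ (F (p - i) (k - 1)).comap δ

/-- `Z^{i-1}_{p-1} + δ Z^{i-1}_{p+i-1}` in degree `k`. -/
def B (i p k : ℤ) : Submodule 𝕜 M :=
  Z δ F (i - 1) (p - 1) k ⊔ (Z δ F (i - 1) (p + i - 1) (k + 1)).map δ

/-- The term `E^i_{p,k-p} = Z^i_p / (Z^{i-1}_{p-1} + δ Z^{i-1}_{p+i-1})` of the spectral sequence of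
the filtered complex with filtration `F` and boundary `δ`. -/
abbrev E (i p k : ℤ) : Type _ := Z δ F i p k ⧸ (B δ F i p k).submoduleOf (Z δ F i p k)

variable {δ F}

lemma map_mem_Z (h : ∀ p k, ∀ z ∈ F p k, δ (δ z) = 0) (i p k : ℤ) :
    ∀ z ∈ Z δ F i p k, δ z ∈ Z δ F i (p - i) (k - 1) := by
  intro z hz
  refine ⟨hz.2, ?_⟩
  change δ (δ z) ∈ F (p - i - i) (k - 1 - 1)
  rw [h _ _ z hz.1]
  exact Submodule.zero_mem _

lemma le_comap (h : ∀ p k, ∀ z ∈ F p k, δ (δ z) = 0) (i p k : ℤ) :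
    (B δ F i p k).submoduleOf (Z δ F i p k) ≤
      ((B δ F i (p - i) (k - 1)).submoduleOf (Z δ F i (p - i) (k - 1))).comap
        (δ.restrict (map_mem_Z h i p k)) := by
  intro z hz
  change δ z.1 ∈ B δ F i (p - i) (k - 1)
  obtain ⟨y, hy, _, ⟨w, hw, rfl⟩, he⟩ := Submodule.mem_sup.1 (show z.1 ∈ B δ F i p k from hz)
  rw [← he, map_add, h _ _ w hw.1, add_zero]
  refine Submodule.mem_sup_right ⟨y, ?_, rfl⟩
  have e1 : p - i + i - 1 = p - 1 := by ring
  have e2 : k - 1 + 1 = k := by ring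
  rw [e1, e2]
  exact hy

/-- The differential `d^i` from `E^i_{p,k-p}` to `E^i_{p-i,k-1-(p-i)}`, induced by `δ`. -/
def d (h : ∀ p k, ∀ z ∈ F p k, δ (δ z) = 0) (i p k : ℤ) :
    E δ F i p k →ₗ[𝕜] E δ F i (p - i) (k - 1) :=
  Submodule.mapQ _ _ (δ.restrict (map_mem_Z h i p k)) (le_comap h i p k)

/-- The spectral sequence degenerates at page `i₀`. -/
def DegeneratesAt (h : ∀ p k, ∀ z ∈ F p k, δ (δ z) = 0) (i₀ : ℤ) : Prop :=
  ∀ i, i₀ ≤ i → ∀ p k, d h i p k = 0

end General

/-- The vertices of the cube are the subsets `x` of `Fin n` (supports of 0/1 words); `code x` is the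
number with these binary digits.  It is used to order the vertices. -/
def code {n : ℕ} (x : Finset (Fin n)) : ℕ := ∑ i ∈ x, 2 ^ (i : ℕ)

lemma code_injective {n : ℕ} : Function.Injective (code (n := n)) := by
  intro x y h
  have h1 : ∀ z : Finset (Fin n), code z = ∑ i ∈ z.map Fin.valEmbedding, 2 ^ i := by
    intro z
    rw [Finset.sum_map]
    rfl
  rw [h1, h1] at h
  exact Finset.map_injective _ (Finset.geomSum_injective le_rfl h)

/-- The simplicial boundary of the complex `X^{n,r}`. -/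
noncomputable def bound (𝕜 : Type*) [Field 𝕜] (n r : ℕ) :
    (Finset (Finset (Fin n)) → 𝕜) →ₗ[𝕜] (Finset (Finset (Fin n)) → 𝕜) :=
  rbd 𝕜 code (IsSimplex r)

/-- Chains of degree `k` in the filtration step `X^{n,r}_p`. -/
def Fil (𝕜 : Type*) [Field 𝕜] (n r : ℕ) (p k : ℤ) : Submodule 𝕜 (Finset (Finset (Fin n)) → 𝕜) where
  carrier := {z | ∀ σ, z σ ≠ 0 → IsSimplex r σ ∧ (cdim σ : ℤ) ≤ p ∧ (σ.card : ℤ) = k + 1}
  add_mem' := by
    intro z w hz hw σ hσ
    by_cases h : z σ = 0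
    · refine hw σ ?_
      rw [Pi.add_apply, h, zero_add] at hσ
      exact hσ
    · exact hz σ h
  zero_mem' := fun σ hσ => absurd rfl hσ
  smul_mem' := by
    intro c z hz σ hσ
    refine hz σ ?_
    rw [Pi.smul_apply, smul_eq_mul] at hσ
    exact right_ne_zero_of_mul hσ

lemma mem_Fil {𝕜 : Type*} [Field 𝕜] {n r : ℕ} {p k : ℤ} {z : Finset (Finset (Fin n)) → 𝕜} :
    z ∈ Fil 𝕜 n r p k ↔
      ∀ σ, z σ ≠ 0 → IsSimplex r σ ∧ (cdim σ : ℤ) ≤ p ∧ (σ.card : ℤ) = k + 1 := Iff.rfl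

lemma isSimplex_convex {n r : ℕ} (σ ρ τ : Finset (Finset (Fin n))) (h1 : σ ⊆ ρ) (h2 : ρ ⊆ τ)
    (hσ : IsSimplex r σ) (hτ : IsSimplex r τ) : IsSimplex r ρ :=
  ⟨hσ.1.mono h1, fun x hx y hy => hτ.2 x (h2 hx) y (h2 hy)⟩

lemma bound_bound {𝕜 : Type*} [Field 𝕜] {n r : ℕ} {p k : ℤ} {z : Finset (Finset (Fin n)) → 𝕜}
    (hz : z ∈ Fil 𝕜 n r p k) : bound 𝕜 n r (bound 𝕜 n r z) = 0 :=
  rbd_rbd code_injective isSimplex_convex z fun σ hσ => (hz σ hσ).1

/-- the boundary of the boundary of a chain is zero -/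
lemma bound_bound' (𝕜 : Type*) [Field 𝕜] (n r : ℕ) (p k : ℤ) (z : Finset (Finset (Fin n)) → 𝕜)
    (hz : z ∈ Fil 𝕜 n r p k) : bound 𝕜 n r (bound 𝕜 n r z) = 0 := bound_bound hz

lemma cdim_mono {n : ℕ} {σ τ : Finset (Finset (Fin n))} (h : σ ⊆ τ) : cdim σ ≤ cdim τ :=
  Finset.card_le_card (nonconst_mono h)

lemma key (𝕜 : Type*) [Field 𝕜] (n r : ℕ) (i p k : ℤ)
    (hi : (r ^ 2 * r.factorial * (4 * r + 4) ^ r : ℕ) < i)
    (x : Finset (Finset (Fin n)) → 𝕜) (hx : x ∈ Z (bound 𝕜 n r) (Fil 𝕜 n r) i p k) :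
    bound 𝕜 n r x ∈ B (bound 𝕜 n r) (Fil 𝕜 n r) i (p - i) (k - 1) := by
  classical
  by_cases hpi : p < i
  · have h1 : bound 𝕜 n r x = 0 := by
      ext σ
      by_contra hne
      have h2 := ((mem_Fil.1 hx.2) σ hne).2.1
      have h3 : (0 : ℤ) ≤ cdim σ := Int.natCast_nonneg _
      omega
    rw [h1]
    exact Submodule.zero_mem _
  · push Not at hpi
    have hp0 : 0 ≤ p := by
      have : (0 : ℤ) ≤ (r ^ 2 * r.factorial * (4 * r + 4) ^ r : ℕ) := Int.natCast_nonneg _
      omega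
    obtain ⟨p', rfl⟩ := Int.eq_ofNat_of_zero_le hp0
    have hp' : r ^ 2 * r.factorial * (4 * r + 4) ^ r < p' := by
      have := hi.trans_le hpi
      exact_mod_cast this
    have hxF : ∀ σ, x σ ≠ 0 → IsSimplex r σ ∧ (cdim σ : ℤ) ≤ p' ∧ (σ.card : ℤ) = k + 1 := hx.1
    have hbF := mem_Fil.1 hx.2
    -- degree
    by_cases hx0 : x = 0
    · rw [hx0, map_zero]
      exact Submodule.zero_mem _
    obtain ⟨σ₀, hσ₀⟩ := Function.ne_iff.1 hx0
    have hk0 : 0 ≤ k + 1 := by
      have h2 := (hxF σ₀ hσ₀).2.2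
      have h3 : (0 : ℤ) ≤ σ₀.card := Int.natCast_nonneg _
      omega
    obtain ⟨m, hm⟩ := Int.eq_ofNat_of_zero_le hk0
    -- the part of cubic dimension `p'`
    let z : Finset (Finset (Fin n)) → 𝕜 := fun σ => if cdim σ = p' then x σ else 0
    have hzx : ∀ σ, IsFace n r p' σ → bd 𝕜 code z σ = bd 𝕜 code x σ := by
      intro σ hσ
      rw [bd_apply, bd_apply]
      refine Finset.sum_congr rfl fun v _ => ?_
      congr 1
      change (if cdim (insert v σ) = p' then x (insert v σ) else 0) = x (insert v σ)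
      split_ifs with h
      · rfl
      · by_contra hne
        have h2 := (hxF _ (Ne.symm hne)).2.1
        have h3 := cdim_mono (Finset.subset_insert v σ)
        have h4 := hσ.2
        have h5 : cdim (insert v σ) ≤ p' := by exact_mod_cast h2
        omega
    have hzcyc : rbd 𝕜 code (IsFace n r p') z = 0 := by
      ext σ
      rw [Pi.zero_apply]
      by_cases hσ : IsFace n r p' σ
      · rw [rbd_of_mem _ hσ, hzx σ hσ]
        by_contra hne
        have h1 : bound 𝕜 n r x σ ≠ 0 := by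
          unfold bound
          rw [rbd_of_mem _ hσ.1]
          exact hne
        have h2 := (hbF σ h1).2.1
        have h3 := hσ.2
        rw [h3] at h2
        have : (0 : ℤ) ≤ (r ^ 2 * r.factorial * (4 * r + 4) ^ r : ℕ) := Int.natCast_nonneg _
        omega
      · exact rbd_of_not_mem _ hσ
    obtain ⟨w, hw1, hw2⟩ := exact_main 𝕜 (o := code) code_injective hp' m z (by
      intro σ hσ
      have h1 : cdim σ = p' ∧ x σ ≠ 0 := by
        change (if cdim σ = p' then x σ else 0) ≠ 0 at hσ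
        split_ifs at hσ with h
        · exact ⟨h, hσ⟩
        · exact absurd rfl hσ
      have h2 := hxF σ h1.2
      refine ⟨⟨h2.1, h1.1⟩, ?_⟩
      have h3 := h2.2.2
      rw [hm] at h3
      exact_mod_cast h3) hzcyc
    have hwFil : w ∈ Fil 𝕜 n r p' (k + 1) := by
      intro σ hσ
      obtain ⟨h1, h2⟩ := hw1 σ hσ
      refine ⟨h1.1, by rw [h1.2], ?_⟩
      rw [h2]
      push_cast
      linarith
    -- the difference
    have hyFil : x - bound 𝕜 n r w ∈ Fil 𝕜 n r (p' - 1) k := by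
      intro σ hσ
      rw [Pi.sub_apply] at hσ
      have hsup : IsSimplex r σ ∧ cdim σ ≤ p' ∧ (σ.card : ℤ) = k + 1 := by
        by_cases h : x σ = 0
        · rw [h, zero_sub, neg_ne_zero] at hσ
          have hS : IsSimplex r σ := by
            by_contra hcon
            exact hσ (rbd_of_not_mem _ hcon)
          have h2 : bd 𝕜 code w σ ≠ 0 := by
            have h3 : bound 𝕜 n r w σ = bd 𝕜 code w σ := rbd_of_mem _ hS
            rw [← h3]
            exact hσ
          obtain ⟨v, hv, hne⟩ := exists_of_bd_ne_zero h2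
          obtain ⟨h4, h5⟩ := hw1 _ hne
          refine ⟨hS, ?_, ?_⟩
          · rw [← h4.2]
            exact cdim_mono (Finset.subset_insert _ _)
          · rw [Finset.card_insert_of_notMem hv] at h5
            rw [hm]
            have h6 : σ.card = m := by omega
            exact_mod_cast h6
        · have h2 := hxF σ h
          exact ⟨h2.1, by exact_mod_cast h2.2.1, h2.2.2⟩
      refine ⟨hsup.1, ?_, hsup.2.2⟩
      have hlt : cdim σ ≠ p' := by
        intro he
        apply hσ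
        have hF : IsFace n r p' σ := ⟨hsup.1, he⟩
        have h1 := congrFun hw2 σ
        rw [rbd_of_mem _ hF] at h1
        have h2 : z σ = x σ := by
          change (if cdim σ = p' then x σ else 0) = x σ
          rw [if_pos he]
        have h3 : bound 𝕜 n r w σ = bd 𝕜 code w σ := rbd_of_mem _ hsup.1
        rw [h3, h1, h2, sub_self]
      have h1 := hsup.2.1
      omega
    have hby : bound 𝕜 n r (x - bound 𝕜 n r w) = bound 𝕜 n r x := by
      rw [map_sub, bound_bound hwFil, sub_zero]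
    refine Submodule.mem_sup_right ⟨x - bound 𝕜 n r w, ?_, hby⟩
    have e1 : (p' : ℤ) - i + i - 1 = p' - 1 := by ring
    have e2 : k - 1 + 1 = k := by ring
    have e3 : (p' : ℤ) - 1 - (i - 1) = p' - i := by ring
    rw [e1, e2]
    refine ⟨hyFil, ?_⟩
    change bound 𝕜 n r (x - bound 𝕜 n r w) ∈ Fil 𝕜 n r ((p' : ℤ) - 1 - (i - 1)) (k - 1)
    rw [hby, e3]
    exact hx.2

/-- **Main result.** For every coefficient field and every scale `r` the spectral sequences of
`X^{n,r}`, for all `n`, degenerate at the page `r ^ 2 * r! * (4 r + 4) ^ r + 1`, which depends only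
on `r`. -/
theorem result (𝕜 : Type*) [Field 𝕜] (n r : ℕ) :
    DegeneratesAt (δ := bound 𝕜 n r) (F := Fil 𝕜 n r) (bound_bound' 𝕜 n r)
      (r ^ 2 * r.factorial * (4 * r + 4) ^ r + 1 : ℕ) := by
  intro i hi p k
  refine LinearMap.ext fun y => ?_
  obtain ⟨⟨x, hx⟩, rfl⟩ := Submodule.Quotient.mk_surjective _ y
  change Submodule.Quotient.mk ((bound 𝕜 n r).restrict (map_mem_Z (bound_bound' 𝕜 n r) i p k)
    ⟨x, hx⟩) = 0
  rw [Submodule.Quotient.mk_eq_zero]
  refine key 𝕜 n r i p k ?_ x hx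
  push_cast at hi ⊢
  omega

end Pool.Agent.Results.MP_e813cc_gt.UniformDegeneration
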